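import Pool.Agent.ASE.Stmts2

/-!
# Squad ASE, row GEB: equivariance of the geometry of the reflection lines
-/

open scoped BigOperators

noncomputable section

namespace Pool.Agent.PP.SE.H82

open Pool.Agent.Helper51_AWC Pool.Agent.Helper79_WRA Pool.Agent.PP Pool.Agent.PP.KF
open Pool.Agent.PP.K9 Pool.Agent.PP.K9.H97 Pool.Agent.PP.H75 Pool.Agent.PP.T3 Pool.Agent.PP.SO
open Pool.Agent.PP.SD

section

variable {V₀ : Type} [CommGroup V₀]

theorem mem_mp (σ : MulAut V₀) (W : Subgroup V₀) (v : V₀) : v ∈ mp σ W ↔ ∃ w ∈ W, σ w = v := by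
  unfold mp
  rw [Subgroup.mem_map]
  rfl

theorem mem_mp_apply (σ : MulAut V₀) (W : Subgroup V₀) (v : V₀) : σ v ∈ mp σ W ↔ v ∈ W := by
  rw [mem_mp]
  constructor
  · rintro ⟨w, hw, h⟩
    rwa [← σ.injective h]
  · intro h
    exact ⟨v, h, rfl⟩

theorem mp_mul (σ τ : MulAut V₀) (W : Subgroup V₀) : mp σ (mp τ W) = mp (σ * τ) W := by
  ext v
  rw [mem_mp, mem_mp]
  constructor
  · rintro ⟨w, hw, rfl⟩
    rw [mem_mp] at hw
    obtain ⟨u, hu, rfl⟩ := hw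
    exact ⟨u, hu, by rw [MulAut.mul_apply]⟩
  · rintro ⟨w, hw, rfl⟩
    exact ⟨τ w, (mem_mp_apply τ W w).2 hw, by rw [MulAut.mul_apply]⟩

theorem mp_one (W : Subgroup V₀) : mp (1 : MulAut V₀) W = W := by
  ext v
  rw [mem_mp]
  constructor
  · rintro ⟨w, hw, rfl⟩
    simpa using hw
  · intro h
    exact ⟨v, h, by simp⟩

theorem mem_St_conj {E₀ : Subgroup (MulAut V₀)} {σ : MulAut V₀} (hσ : σ ∈ E₀) (W : Subgroup V₀)
    (τ : MulAut V₀) : τ ∈ St E₀ W ↔ σ * τ * σ⁻¹ ∈ St E₀ (mp σ W) := by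
  have hE : τ ∈ E₀ ↔ σ * τ * σ⁻¹ ∈ E₀ := by
    constructor
    · intro h
      exact E₀.mul_mem (E₀.mul_mem hσ h) (E₀.inv_mem hσ)
    · intro h
      have h2 := E₀.mul_mem (E₀.mul_mem (E₀.inv_mem hσ) h) hσ
      have e : σ⁻¹ * (σ * τ * σ⁻¹) * σ = τ := by group
      rwa [e] at h2
  constructor
  · rintro ⟨h1, h2⟩
    refine ⟨hE.1 h1, ?_⟩
    intro w hw
    rw [mem_mp] at hw
    obtain ⟨u, hu, rfl⟩ := hw
    rw [MulAut.mul_apply, MulAut.mul_apply, MulAut.inv_apply_self, h2 u hu]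
  · rintro ⟨h1, h2⟩
    refine ⟨hE.2 h1, ?_⟩
    intro w hw
    have h3 := h2 (σ w) ((mem_mp_apply σ W w).2 hw)
    rw [MulAut.mul_apply, MulAut.mul_apply, MulAut.inv_apply_self] at h3
    exact σ.injective h3

/-- conjugation by `σ` -/
def cjE {E₀ : Subgroup (MulAut V₀)} {σ : MulAut V₀} (hσ : σ ∈ E₀) (W : Subgroup V₀) :
    St E₀ W ≃ St E₀ (mp σ W) where
  toFun τ := ⟨σ * τ * σ⁻¹, (mem_St_conj hσ W τ).1 τ.2⟩
  invFun τ := ⟨σ⁻¹ * τ * σ, (mem_St_conj hσ W _).2 (by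
    have e : σ * (σ⁻¹ * (τ : MulAut V₀) * σ) * σ⁻¹ = τ := by group
    rw [e]; exact τ.2)⟩
  left_inv τ := by
    apply Subtype.ext
    change σ⁻¹ * (σ * (τ : MulAut V₀) * σ⁻¹) * σ = τ
    group
  right_inv τ := by
    apply Subtype.ext
    change σ * (σ⁻¹ * (τ : MulAut V₀) * σ) * σ⁻¹ = τ
    group

theorem cjE_apply {E₀ : Subgroup (MulAut V₀)} {σ : MulAut V₀} (hσ : σ ∈ E₀) (W : Subgroup V₀)
    (τ : St E₀ W) : ((cjE hσ W τ : St E₀ (mp σ W)) : MulAut V₀) = σ * τ * σ⁻¹ := rfl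

theorem card_mp (σ : MulAut V₀) (W : Subgroup V₀) : Nat.card (mp σ W) = Nat.card W := by
  refine Nat.card_congr (Equiv.symm ?_)
  refine Equiv.ofBijective (fun w : W => (⟨σ w, (mem_mp_apply σ W w).2 w.2⟩ : mp σ W)) ⟨?_, ?_⟩
  · intro a b h
    apply Subtype.ext
    exact σ.injective (congrArg Subtype.val h)
  · rintro ⟨v, hv⟩
    rw [mem_mp] at hv
    obtain ⟨w, hw, rfl⟩ := hv
    exact ⟨⟨w, hw⟩, rfl⟩

theorem map_finprod' [Finite V₀] (σ : MulAut V₀) {ι : Type} [Finite ι] (f : ι → V₀) :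
    σ (∏ᶠ i, f i) = ∏ᶠ i, σ (f i) := by
  have := (σ : V₀ ≃* V₀).toMonoidHom.map_finprod (f := f) (Set.toFinite _)
  simpa using this

theorem kW_le {E₀ : Subgroup (MulAut V₀)} {σ : MulAut V₀} (hσ : σ ∈ E₀) (W : Subgroup V₀) :
    kW E₀ (mp σ W) = mp σ (kW E₀ W) := by
  unfold kW mp
  rw [MonoidHom.map_closure]
  congr 1
  ext y
  constructor
  · rintro ⟨τ', hτ', v, rfl⟩
    obtain ⟨τ, hτ⟩ := (cjE hσ W).surjective ⟨τ', hτ'⟩
    have hτ2 : σ * (τ : MulAut V₀) * σ⁻¹ = τ' := by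
      have := congrArg Subtype.val hτ
      rwa [cjE_apply] at this
    refine ⟨(τ : MulAut V₀) (σ⁻¹ v) * (σ⁻¹ v)⁻¹, ⟨τ, τ.2, σ⁻¹ v, rfl⟩, ?_⟩
    change σ ((τ : MulAut V₀) (σ⁻¹ v) * (σ⁻¹ v)⁻¹) = τ' v * v⁻¹
    rw [map_mul, map_inv, MulAut.apply_inv_self, ← hτ2, MulAut.mul_apply, MulAut.mul_apply]
  · rintro ⟨z, ⟨τ, hτ, v, rfl⟩, rfl⟩
    refine ⟨σ * τ * σ⁻¹, (mem_St_conj hσ W τ).1 hτ, σ v, ?_⟩
    change σ (τ v * v⁻¹) = (σ * τ * σ⁻¹) (σ v) * (σ v)⁻¹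
    rw [map_mul, map_inv, MulAut.mul_apply, MulAut.mul_apply, MulAut.inv_apply_self]

end

theorem geb : GebStmt := by
  intro ℓ _ V₀ _ _ E₀ σ hσ W
  have hn : nS E₀ (mp σ W) = nS E₀ W := by
    unfold nS
    exact (Nat.card_congr (cjE hσ W)).symm
  refine ⟨fun τ => mem_St_conj hσ W τ, hn, card_mp σ W, ?_, ?_, fun v => mem_mp_apply σ W v, ?_,
    fun τ _ => mp_mul σ τ W, mp_one W, ?_⟩
  · unfold RL
    rw [Set.mem_setOf_eq, Set.mem_setOf_eq, card_mp, hn]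
  · intro v
    unfold pr
    rw [hn, map_pow]
    congr 1
    haveI : Finite (MulAut V₀) := Finite.of_injective (fun f : MulAut V₀ => (f : V₀ → V₀))
      (fun f g h => MulEquiv.ext (fun x => congrFun h x))
    rw [map_finprod' σ (fun τ : St E₀ W => (τ : MulAut V₀) v)]
    symm
    refine finprod_eq_of_bijective (cjE hσ W) (cjE hσ W).bijective ?_
    intro τ
    rw [cjE_apply, MulAut.mul_apply, MulAut.mul_apply, MulAut.inv_apply_self]
  · intro v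
    rw [kW_le hσ W]
    exact mem_mp_apply σ _ v
  · constructor
    · intro h
      rw [Subgroup.eq_bot_iff_forall] at h ⊢
      intro x hx
      have := h (σ x) ((mem_mp_apply σ W x).2 hx)
      exact σ.injective (by rw [this, map_one])
    · rintro rfl
      rw [Subgroup.eq_bot_iff_forall]
      intro x hx
      rw [mem_mp] at hx
      obtain ⟨w, hw, rfl⟩ := hx
      rw [Subgroup.mem_bot] at hw
      rw [hw, map_one]

end Pool.Agent.PP.SE.H82
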