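import Pool.Agent.ASE.Stmts7
import Pool.Agent.Helper82_ASE.GEB

/-!
# Squad ASE, row HEX: the sums over the block as a structure
-/

open scoped BigOperators

noncomputable section

namespace Pool.Agent.PP.SE.H82

open Pool.Agent.Helper51_AWC Pool.Agent.Helper79_WRA Pool.Agent.PP Pool.Agent.PP.KF
open Pool.Agent.PP.K9 Pool.Agent.PP.K9.H97 Pool.Agent.PP.H75 Pool.Agent.PP.T3 Pool.Agent.PP.SO
open Pool.Agent.PP.SD

theorem pow_ne_one' {ℓ : ℕ} [Fact ℓ.Prime] {V₀ : Type} [CommGroup V₀] (hex : ∀ v : V₀, v ^ ℓ = 1)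
    {c : V₀} (hc : c ≠ 1) {j : ℕ} (hj : ¬ ℓ ∣ j) : c ^ j ≠ 1 := by
  intro h
  have h1 : orderOf c = ℓ := orderOf_eq_prime (hex c) hc
  exact hj (h1 ▸ orderOf_dvd_of_pow_eq_one h)

open Classical in
theorem hex (heiv : EivStmt) (hhse : HseStmt) : HexStmt := by
  intro ℓ _ M _ hℓ hℓ2 V₀ G _ _ _ _ E₀ hF B hB D hD
  obtain ⟨d₁, n₁, z₁, y₁, ⟨h1, h2, h3⟩, h4, h5, h6, h7⟩ :=
    hhse ℓ M hℓ hℓ2 V₀ G E₀ hF B hB D hD
  have hE := heiv ℓ M hℓ hℓ2 V₀ G E₀ hF B hB.toSb D hD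
  have hRL : ∀ σ ∈ E₀, ∀ a ∈ RL ℓ E₀, mp σ a ∈ RL ℓ E₀ := by
    intro σ hσ a ha
    exact ((geb ℓ V₀ E₀ σ hσ a).2.2.2.1).2 ha
  refine ⟨fun c => if c = 1 then 0 else d₁ c, n₁, z₁, y₁, ?_⟩
  refine
    { d := ?_, d0 := ?_, dr := ?_, dp := ?_, de := ?_, n := ?_, nr := ?_, z := ?_, zr := ?_,
      zz := ?_, ze := ?_, y := ?_, yr := ?_, sy := h5, sf := ?_, hh := ?_ }
  · intro c hc
    simp only [hc, if_false]
    exact (h1 c hc).1
  · simp
  · intro c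
    by_cases hc : c = 1
    · simp only [hc, if_true]
      exact zero_mem _
    · simp only [hc, if_false]
      exact (h1 c hc).2
  · intro c j hj
    by_cases hc : c = 1
    · simp [hc]
    · have hcj : c ^ j ≠ 1 := pow_ne_one' hF.ex hc hj
      simp only [hc, hcj, if_false]
      exact h3 c j hj
  · intro σ hσ c
    by_cases hc : c = 1
    · simp [hc]
    · have hσc : σ c ≠ 1 := fun h => hc (σ.injective (by rw [h, map_one]))
      simp only [hc, hσc, if_false]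
      have e1 := (h1 c hc).1
      have e2 := (h1 (σ c) hσc).1
      rw [(hE σ hσ).1 c, e1] at e2
      exact_mod_cast e2.symm
  · intro c d hc hd
    exact (h2 c d hc hd).1
  · intro c d hc hd
    exact (h2 c d hc hd).2.2
  · intro a ha κ hκ
    exact (h4 a ha κ hκ).1
  · intro a ha κ hκ
    exact (h4 a ha κ hκ).2.1
  · intro a ha κ hκ
    exact (h4 a ha κ hκ).2.2.1
  · intro a ha σ hσ
    have e1 := (h4 a ha 1 a.one_mem).1
    have e2 := (h4 (mp σ a) (hRL σ hσ a ha) 1 (mp σ a).one_mem).1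
    have e3 := (hE σ hσ).2 a ha 1 a.one_mem
    rw [map_one] at e3
    rw [e3, e1] at e2
    exact_mod_cast e2.symm
  · intro a ha κ hκ d hd
    exact ⟨((h4 a ha κ hκ).2.2.2 d hd).1, ((h4 a ha κ hκ).2.2.2 d hd).2.1⟩
  · intro a ha κ hκ d hd
    exact ((h4 a ha κ hκ).2.2.2 d hd).2.2
  · intro c d hc hd
    simp only [hc, hd, if_false]
    exact h6 c d hc hd
  · have e : ∑ᶠ c ∈ {c : V₀ | c ≠ 1}, (if c = 1 then 0 else d₁ c) =
        ∑ᶠ c ∈ {c : V₀ | c ≠ 1}, d₁ c := by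
      refine finsum_mem_congr rfl ?_
      intro c hc
      have hc' : c ≠ 1 := hc
      simp only [hc', if_false]
    rw [e]
    exact h7

end Pool.Agent.PP.SE.H82
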