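import Pool.Agent.ASE.Stmts5

/-!
# Squad ASE, row TYA: the types `TA`, `TD`
-/

open scoped BigOperators

noncomputable section

namespace Pool.Agent.PP.SE.H82

open Pool.Agent.Helper51_AWC Pool.Agent.Helper79_WRA Pool.Agent.PP Pool.Agent.PP.KF
open Pool.Agent.PP.K9 Pool.Agent.PP.K9.H97 Pool.Agent.PP.H75 Pool.Agent.PP.T3 Pool.Agent.PP.SO
open Pool.Agent.PP.SD

section

variable {V₀ : Type} [CommGroup V₀]

/-- an element which is fixed in a group of prime order -/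
theorem st_of_fix {ℓ : ℕ} [Fact ℓ.Prime] {E₀ : Subgroup (MulAut V₀)} {a : Subgroup V₀}
    {τ : MulAut V₀} (hc : Nat.card a = ℓ) (hτ : τ ∈ E₀) {β : V₀} (hβ : β ∈ a) (h1 : β ≠ 1)
    (hf : τ β = β) : τ ∈ St E₀ a := by
  refine ⟨hτ, fun w hw => ?_⟩
  have hpr : (Nat.card a).Prime := by rw [hc]; exact Fact.out
  have : Fact (Nat.card a).Prime := ⟨hpr⟩
  have hgen : (⟨w, hw⟩ : a) ∈ Subgroup.zpowers (⟨β, hβ⟩ : a) := by
    have htop : Subgroup.zpowers (⟨β, hβ⟩ : a) = ⊤ :=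
      zpowers_eq_top_of_prime_card (p := Nat.card a) rfl (fun h => h1 (congrArg Subtype.val h))
    rw [htop]
    exact Subgroup.mem_top _
  obtain ⟨k, hk⟩ := Subgroup.mem_zpowers_iff.1 hgen
  have hk' : β ^ k = w := by
    have := congrArg Subtype.val hk
    simpa using this
  rw [← hk', map_zpow, hf]

theorem inv_iff (σ : MulAut V₀) (p q : V₀) : σ q = p ↔ q = σ⁻¹ p := by
  constructor
  · rintro rfl
    rw [MulAut.inv_apply_self]
  · rintro rfl
    rw [MulAut.apply_inv_self]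

theorem fix_iff {τ : MulAut V₀} {α y : V₀} (hf : τ α = α) (i : ℕ) :
    τ (α * y ^ i) = α ↔ y ^ i = 1 := by
  rw [map_mul, hf]
  constructor
  · intro h
    have h2 : τ (y ^ i) = 1 := by
      have := mul_left_cancel (a := α) (b := τ (y ^ i)) (c := 1) (by rw [mul_one]; exact h)
      exact this
    exact τ.injective (by rw [h2, map_one])
  · intro h
    rw [h, map_one, mul_one]

theorem two_iff {ℓ : ℕ} [Fact ℓ.Prime] {E₀ : Subgroup (MulAut V₀)} {a : Subgroup V₀}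
    {τ : MulAut V₀} (hc : Nat.card a = ℓ) (hτ : τ ∈ E₀) (hS : τ ∉ St E₀ a) {ζ α : V₀}
    (hζ : ζ ∈ a) (hα : α ∈ a) (i : ℕ) :
    τ (α * (τ⁻¹ ζ * ζ⁻¹) ^ i) = α ↔ α = ζ ^ i := by
  have e1 : τ (α * (τ⁻¹ ζ * ζ⁻¹) ^ i) = τ (α * (ζ ^ i)⁻¹) * ζ ^ i := by
    rw [mul_pow, inv_pow, ← map_pow (τ⁻¹) ζ i, map_mul τ α, map_mul τ (τ⁻¹ (ζ ^ i)),
      MulAut.apply_inv_self, map_mul τ α, mul_comm (ζ ^ i), mul_assoc]
  rw [e1]
  constructor
  · intro h
    by_contra hne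
    apply hS
    refine st_of_fix hc hτ (β := α * (ζ ^ i)⁻¹) (a.mul_mem hα (a.inv_mem (a.pow_mem hζ i))) ?_ ?_
    · intro h1
      exact hne (mul_inv_eq_one.1 h1)
    · exact eq_mul_inv_of_mul_eq h
  · intro h
    rw [h, mul_inv_cancel, map_one, one_mul]

theorem three {ℓ : ℕ} [Fact ℓ.Prime] {E₀ : Subgroup (MulAut V₀)} {a : Subgroup V₀}
    (hex : ∀ v : V₀, v ^ ℓ = 1)
    {τ : MulAut V₀} (hc : Nat.card a = ℓ) (hτ : τ ∈ E₀) (hS : τ ∉ St E₀ a) {α y : V₀}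
    (hα : α ∈ a) (hy : ∀ ζ ∈ a, ζ ≠ 1 → y ≠ τ⁻¹ ζ * ζ⁻¹) (i : ℕ)
    (h : τ (α * y ^ i) = α) : α = 1 := by
  by_contra hne
  have hyi : y ^ i = τ⁻¹ α * α⁻¹ := by
    have h2 : α * y ^ i = τ⁻¹ α := (inv_iff τ α _).1 h
    rw [← h2]
    exact (mul_inv_eq_of_eq_mul (mul_comm _ _)).symm
  by_cases hi : ℓ ∣ i
  · obtain ⟨j, rfl⟩ := hi
    rw [pow_mul, hex, one_pow] at hyi
    apply hS
    refine st_of_fix hc hτ hα hne ?_
    exact (inv_iff τ α α).2 (mul_inv_eq_one.1 hyi.symm).symm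
  · have hcop : Nat.Coprime i ℓ :=
      ((Nat.Prime.coprime_iff_not_dvd Fact.out).2 hi).symm
    obtain ⟨i', -, hi'⟩ := Nat.exists_mul_mod_eq_one_of_coprime hcop (Nat.Prime.one_lt Fact.out)
    have hpow : ∀ v : V₀, (v ^ i) ^ i' = v := by
      intro v
      rw [← pow_mul]
      have h3 : i * i' = ℓ * (i * i' / ℓ) + 1 := by
        have := Nat.div_add_mod (i * i') ℓ
        rw [hi'] at this
        exact this.symm
      rw [h3, pow_add, pow_mul, hex, one_pow, one_mul, pow_one]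
    refine hy (α ^ i') (a.pow_mem hα i') ?_ ?_
    · intro h1
      apply hne
      have := hpow α
      rw [← pow_mul, mul_comm, pow_mul, h1, one_pow] at this
      exact this.symm
    · have := hpow y
      rw [hyi, mul_pow] at this
      rw [← this, ← map_pow, inv_pow]

end

theorem tya : TyaStmt := by
  intro ℓ _ V₀ _ _ E₀ hF n σ τ a κ y hc hσ hτ
  refine ⟨?_, ?_, ?_⟩
  · intro hS
    have hfix : ∀ α ∈ a, τ α = α := hS.2
    refine ⟨fun hκ => ?_, ?_⟩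
    · ext s
      constructor
      · rintro ⟨h1, h2, h3⟩
        exact ⟨h1, (inv_iff _ _ _).1 h2,
          (fix_iff (hfix _ (a.mul_mem (a.pow_mem hκ _) h1)) _).1 h3⟩
      · rintro ⟨h1, h2, h3⟩
        exact ⟨h1, (inv_iff _ _ _).2 h2,
          (fix_iff (hfix _ (a.mul_mem (a.pow_mem hκ _) h1)) _).2 h3⟩
    · ext s
      constructor
      · rintro ⟨h1, h2, h3⟩
        exact ⟨h1, (inv_iff _ _ _).1 h2, (fix_iff (hfix _ h1) _).1 h3⟩
      · rintro ⟨h1, h2, h3⟩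
        exact ⟨h1, (inv_iff _ _ _).2 h2, (fix_iff (hfix _ h1) _).2 h3⟩
  · intro hS ζ hζ hζ1 hy
    subst hy
    have hp : ∀ (p : V₀) (i k : ℕ), κ ^ k * p = ζ ^ i ↔ p = ζ ^ i * κ⁻¹ ^ k := by
      intro p i k
      constructor
      · intro h
        rw [← h, inv_pow]
        exact (mul_inv_eq_of_eq_mul (mul_comm _ _)).symm
      · rintro rfl
        rw [inv_pow, mul_comm]
        exact inv_mul_cancel_right _ _
    have hq : ∀ (i k : ℕ), σ⁻¹ (ζ ^ i * κ⁻¹ ^ k) = (σ⁻¹ ζ) ^ i * (σ⁻¹ κ)⁻¹ ^ k := by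
      intro i k
      rw [map_mul, map_pow, map_pow, map_inv]
    refine ⟨fun hκ => ?_, ?_⟩
    · ext s
      constructor
      · rintro ⟨h1, h2, h3⟩
        have h4 := (two_iff hc hτ hS hζ (a.mul_mem (a.pow_mem hκ _) h1) _).1 h3
        have h5 := (hp _ _ _).1 h4
        refine ⟨h5, ?_⟩
        rw [← hq, ← h5]
        exact (inv_iff _ _ _).1 h2
      · rintro ⟨h1, h2⟩
        have h4 := (hp _ _ _).2 h1
        have h0 : s.2.2.1 ∈ a := by
          rw [h1]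
          exact a.mul_mem (a.pow_mem hζ _) (a.pow_mem (a.inv_mem hκ) _)
        refine ⟨h0, ?_, ?_⟩
        · rw [inv_iff, h1, hq]
          exact h2
        · exact (two_iff hc hτ hS hζ (a.mul_mem (a.pow_mem hκ _) h0) _).2 h4
    · ext s
      constructor
      · rintro ⟨h1, h2, h3⟩
        have h4 := (two_iff hc hτ hS hζ h1 _).1 h3
        have h5 := (hp _ _ _).1 h4
        refine ⟨h5, ?_⟩
        rw [← hq, ← h5]
        exact (inv_iff _ _ _).1 h2
      · rintro ⟨h1, h2⟩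
        have h4 := (hp _ _ _).2 h1
        have h0 : κ ^ (s.2.1 : ℕ) * s.2.2.1 ∈ a := by
          rw [h4]
          exact a.pow_mem hζ _
        refine ⟨h0, ?_, ?_⟩
        · rw [inv_iff, h1, hq]
          exact h2
        · exact (two_iff hc hτ hS hζ h0 _).2 h4
  · intro hS hy
    refine ⟨fun hκ s hs => ?_, fun s hs => ?_⟩
    · obtain ⟨h1, h2, h3⟩ := hs
      exact three hF.ex hc hτ hS (a.mul_mem (a.pow_mem hκ _) h1) hy _ h3
    · obtain ⟨h1, h2, h3⟩ := hs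
      exact three hF.ex hc hτ hS h1 hy _ h3

end Pool.Agent.PP.SE.H82
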